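import Pool.Agent.Helper1.LL.Defs

/-!
# Levy-Lieb project, tasks A1 and A3: density of test functions in `H¹` and the chain rule
-/

open MeasureTheory Filter Topology
open scoped ENNReal Convolution

noncomputable section

namespace Pool.Agent.Helper21.LL

open Pool.Agent.Helper1.LL

variable {d : ℕ} {F : Type*} [NormedAddCommGroup F] [NormedSpace ℝ F]

/-- Young's inequality for a probability density and exponent `2`. -/
theorem eLpNorm_convolution_le (ρ : Sp d → ℝ) (hρc : Continuous ρ) (hρs : HasCompactSupport ρ)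
    (hρ0 : ∀ x, 0 ≤ ρ x) (hρ1 : ∫ x, ρ x = 1) {h : Sp d → F} (hh : AEStronglyMeasurable h volume) :
    eLpNorm (ρ ⋆[ContinuousLinearMap.lsmul ℝ ℝ, volume] h) 2 volume ≤ eLpNorm h 2 volume := by
  have hρm : Measurable (fun t => ‖ρ t‖ₑ) := hρc.measurable.enorm
  have hρint : Integrable ρ volume := hρc.integrable_of_hasCompactSupport hρs
  have hρ1' : ∫⁻ t, ‖ρ t‖ₑ = 1 := by
    have h1 : ∫⁻ t, ‖ρ t‖ₑ = ENNReal.ofReal (∫ t, ρ t) := by
      rw [ofReal_integral_eq_lintegral_ofReal hρint (Eventually.of_forall hρ0)]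
      apply lintegral_congr
      intro t
      rw [Real.enorm_eq_ofReal (hρ0 t)]
    rw [h1, hρ1, ENNReal.ofReal_one]
  -- pointwise bound
  have hpt : ∀ x, ‖(ρ ⋆[ContinuousLinearMap.lsmul ℝ ℝ, volume] h) x‖ₑ ^ (2:ℝ) ≤
      ∫⁻ t, ‖ρ t‖ₑ * ‖h (x - t)‖ₑ ^ (2:ℝ) := by
    intro x
    have hmx : AEMeasurable (fun t => ‖h (x - t)‖ₑ) volume :=
      (hh.comp_quasiMeasurePreserving
        (quasiMeasurePreserving_sub_left_of_right_invariant volume x)).enorm
    have h1 : ‖(ρ ⋆[ContinuousLinearMap.lsmul ℝ ℝ, volume] h) x‖ₑ ≤ ∫⁻ t, ‖ρ t‖ₑ * ‖h (x - t)‖ₑ := by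
      rw [convolution_def]
      refine (enorm_integral_le_lintegral_enorm _).trans (le_of_eq ?_)
      apply lintegral_congr
      intro t
      rw [ContinuousLinearMap.lsmul_apply, enorm_smul]
    have h2 := ENNReal.lintegral_mul_le_Lp_mul_Lq volume (p := 2) (q := 2) Real.HolderConjugate.two_two
      (f := fun t => ‖ρ t‖ₑ ^ (1/2 : ℝ)) (g := fun t => ‖ρ t‖ₑ ^ (1/2 : ℝ) * ‖h (x - t)‖ₑ)
      (hρm.pow_const _).aemeasurable ((hρm.pow_const _).aemeasurable.mul hmx)
    have e1 : ∀ t, ((fun t => ‖ρ t‖ₑ ^ (1/2 : ℝ)) * fun t => ‖ρ t‖ₑ ^ (1/2 : ℝ) * ‖h (x - t)‖ₑ) t =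
        ‖ρ t‖ₑ * ‖h (x - t)‖ₑ := by
      intro t
      rw [Pi.mul_apply, ← mul_assoc, ← ENNReal.rpow_add_of_nonneg _ _ (by norm_num) (by norm_num)]
      norm_num
    have e2 : ∀ t, (‖ρ t‖ₑ ^ (1/2 : ℝ)) ^ (2:ℝ) = ‖ρ t‖ₑ := by
      intro t
      rw [← ENNReal.rpow_mul]; norm_num
    have e3 : ∀ t, (‖ρ t‖ₑ ^ (1/2 : ℝ) * ‖h (x - t)‖ₑ) ^ (2:ℝ) = ‖ρ t‖ₑ * ‖h (x - t)‖ₑ ^ (2:ℝ) := by
      intro t
      rw [ENNReal.mul_rpow_of_nonneg _ _ (by norm_num), e2]
    rw [lintegral_congr e1, lintegral_congr e2, lintegral_congr e3, hρ1', ENNReal.one_rpow, one_mul] at h2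
    calc ‖(ρ ⋆[ContinuousLinearMap.lsmul ℝ ℝ, volume] h) x‖ₑ ^ (2:ℝ)
        ≤ (∫⁻ t, ‖ρ t‖ₑ * ‖h (x - t)‖ₑ) ^ (2:ℝ) := ENNReal.rpow_le_rpow h1 (by norm_num)
      _ ≤ ((∫⁻ t, ‖ρ t‖ₑ * ‖h (x - t)‖ₑ ^ (2:ℝ)) ^ (1 / 2 : ℝ)) ^ (2:ℝ) :=
          ENNReal.rpow_le_rpow h2 (by norm_num)
      _ = _ := by rw [← ENNReal.rpow_mul]; norm_num
  have hprod : AEMeasurable (Function.uncurry fun x t => ‖ρ t‖ₑ * ‖h (x - t)‖ₑ ^ (2:ℝ))
      ((volume : Measure (Sp d)).prod volume) := by
    apply AEMeasurable.mul
    · exact (hρm.comp measurable_snd).aemeasurable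
    · apply AEMeasurable.pow_const
      exact (hh.comp_quasiMeasurePreserving
        (quasiMeasurePreserving_sub_of_right_invariant volume volume)).enorm
  have hmain : ∫⁻ x, ‖(ρ ⋆[ContinuousLinearMap.lsmul ℝ ℝ, volume] h) x‖ₑ ^ (2:ℝ) ≤
      ∫⁻ x, ‖h x‖ₑ ^ (2:ℝ) := by
    calc ∫⁻ x, ‖(ρ ⋆[ContinuousLinearMap.lsmul ℝ ℝ, volume] h) x‖ₑ ^ (2:ℝ)
        ≤ ∫⁻ x, ∫⁻ t, ‖ρ t‖ₑ * ‖h (x - t)‖ₑ ^ (2:ℝ) := lintegral_mono hpt
      _ = ∫⁻ t, ∫⁻ x, ‖ρ t‖ₑ * ‖h (x - t)‖ₑ ^ (2:ℝ) := lintegral_lintegral_swap hprod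
      _ = ∫⁻ t, ‖ρ t‖ₑ * ∫⁻ x, ‖h x‖ₑ ^ (2:ℝ) := by
          apply lintegral_congr
          intro t
          rw [lintegral_const_mul' _ _ enorm_ne_top]
          congr 1
          exact lintegral_sub_right_eq_self (fun x => ‖h x‖ₑ ^ (2:ℝ)) t
      _ = ∫⁻ x, ‖h x‖ₑ ^ (2:ℝ) := by
          rw [lintegral_mul_const _ hρm, hρ1', one_mul]
  rw [eLpNorm_eq_lintegral_rpow_enorm_toReal (by norm_num) (by norm_num),
    eLpNorm_eq_lintegral_rpow_enorm_toReal (by norm_num) (by norm_num)]
  simp only [ENNReal.toReal_ofNat]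
  exact ENNReal.rpow_le_rpow hmain (by norm_num)

/-- A sequence of bump functions shrinking to the origin. -/
def bmp (d : ℕ) (n : ℕ) : ContDiffBump (0 : Sp d) where
  rIn := 1 / (2 * ((n : ℝ) + 1))
  rOut := 1 / ((n : ℝ) + 1)
  rIn_pos := by positivity
  rIn_lt_rOut := by
    apply one_div_lt_one_div_of_lt (by positivity)
    have : (0:ℝ) ≤ n := Nat.cast_nonneg n
    linarith

/-- Mollification. -/
def moll (n : ℕ) (h : Sp d → F) : Sp d → F :=
  (bmp d n).normed volume ⋆[ContinuousLinearMap.lsmul ℝ ℝ, volume] h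

theorem moll_le (n : ℕ) {h : Sp d → F} (hh : AEStronglyMeasurable h volume) :
    eLpNorm (moll n h) 2 volume ≤ eLpNorm h 2 volume :=
  eLpNorm_convolution_le _ (bmp d n).continuous_normed (bmp d n).hasCompactSupport_normed
    (bmp d n).nonneg_normed (bmp d n).integral_normed hh

theorem moll_exists (n : ℕ) {h : Sp d → F} (hh : LocallyIntegrable h volume) :
    ConvolutionExists ((bmp d n).normed volume) h (ContinuousLinearMap.lsmul ℝ ℝ) volume :=
  (bmp d n).hasCompactSupport_normed.convolutionExists_left _ (bmp d n).continuous_normed hh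

theorem moll_add (n : ℕ) {h g : Sp d → F} (hh : LocallyIntegrable h volume)
    (hg : LocallyIntegrable g volume) : moll n (h + g) = moll n h + moll n g :=
  (moll_exists n hh).distrib_add (moll_exists n hg)

theorem moll_contDiff [CompleteSpace F] (n : ℕ) {h : Sp d → F} (hh : LocallyIntegrable h volume) :
    ContDiff ℝ (⊤ : ℕ∞) (moll n h) :=
  (bmp d n).hasCompactSupport_normed.contDiff_convolution_left _ (bmp d n).contDiff_normed hh

theorem moll_tendsto [CompleteSpace F] {h : Sp d → F} (hh : MemLp h 2 volume) :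
    Tendsto (fun n => eLpNorm (moll n h - h) 2 volume) atTop (𝓝 0) := by
  rw [ENNReal.tendsto_nhds_zero]
  intro ε hε
  obtain ⟨ε', hε', hlt⟩ : ∃ ε' : ℝ, 0 < ε' ∧ ENNReal.ofReal ε' * 3 ≤ ε := by
    rcases eq_or_ne ε ⊤ with rfl | hne
    · exact ⟨1, one_pos, le_top⟩
    · refine ⟨ε.toReal / 3, by have := ENNReal.toReal_pos hε.ne' hne; positivity, ?_⟩
      have e3 : (3 : ℝ≥0∞) = ENNReal.ofReal 3 := by simp
      rw [e3, ← ENNReal.ofReal_mul (by positivity), div_mul_cancel₀ _ (by norm_num),
        ENNReal.ofReal_toReal hne]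
  obtain ⟨g, hgs, hg1, hgc, hg2⟩ := hh.exists_hasCompactSupport_eLpNorm_sub_le (by norm_num)
    (ε := ENNReal.ofReal ε') (by simpa using hε')
  set S : Set (Sp d) := Metric.cthickening 1 (tsupport g) with hS
  have hScomp : IsCompact S := hgs.isCompact.cthickening
  have hSfin : volume S ≠ ⊤ := hScomp.measure_lt_top.ne
  obtain ⟨η, hη, hηle⟩ : ∃ η : ℝ, 0 < η ∧ (volume S) ^ (1/2 : ℝ) * ENNReal.ofReal η ≤ ENNReal.ofReal ε' := by
    set V : ℝ := (volume S).toReal ^ (1/2 : ℝ) with hV
    have hV0 : 0 ≤ V := by positivity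
    refine ⟨ε' / (V + 1), by positivity, ?_⟩
    rw [← ENNReal.ofReal_toReal hSfin, ENNReal.ofReal_rpow_of_nonneg ENNReal.toReal_nonneg (by norm_num),
      ← ENNReal.ofReal_mul (by positivity)]
    apply ENNReal.ofReal_le_ofReal
    rw [mul_div_assoc', div_le_iff₀ (by positivity)]
    nlinarith
  have huc := hgs.uniformContinuous_of_continuous hgc
  obtain ⟨δ, hδ, hδ'⟩ := Metric.uniformContinuous_iff.1 huc η hη
  have hev : ∀ᶠ n : ℕ in atTop, 1 / ((n : ℝ) + 1) < δ :=
    (tendsto_one_div_add_atTop_nhds_zero_nat (𝕜 := ℝ)).eventually (gt_mem_nhds hδ)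
  filter_upwards [hev] with n hn
  have hhl : LocallyIntegrable h volume := hh.locallyIntegrable (by norm_num)
  have hgl : LocallyIntegrable g volume := hgc.locallyIntegrable
  have hdec : moll n h - h = moll n (h - g) + (moll n g - g) + (g - h) := by
    have : moll n h = moll n (h - g) + moll n g := by
      rw [← moll_add n (hhl.sub hgl) hgl, sub_add_cancel]
    rw [this]
    abel
  have hm1 : AEStronglyMeasurable (moll n (h - g)) volume :=
    (moll_contDiff n (hhl.sub hgl)).continuous.aestronglyMeasurable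
  have hm2 : AEStronglyMeasurable (moll n g - g) volume :=
    ((moll_contDiff n hgl).continuous.sub hgc).aestronglyMeasurable
  have hm3 : AEStronglyMeasurable (g - h) volume := hg2.1.sub hh.1
  have hb1 : eLpNorm (moll n (h - g)) 2 volume ≤ ENNReal.ofReal ε' :=
    (moll_le n (hh.1.sub hg2.1)).trans hg1
  have hb3 : eLpNorm (g - h) 2 volume ≤ ENNReal.ofReal ε' := by
    rw [← neg_sub, eLpNorm_neg]; exact hg1
  have hsupp : Function.support (moll n g - g) ⊆ S := by
    intro x hx
    by_contra hxS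
    apply hx
    have hx1 : g x = 0 := by
      by_contra hne
      exact hxS (Metric.self_subset_cthickening _ (subset_tsupport g hne))
    have hx2 : moll n g x = 0 := by
      by_contra hne
      have := support_convolution_subset (ContinuousLinearMap.lsmul ℝ ℝ) (μ := (volume : Measure (Sp d)))
        (show x ∈ Function.support (moll n g) from hne)
      rw [Set.mem_add] at this
      obtain ⟨y, hy, z, hz, hyz⟩ := this
      rw [(bmp d n).support_normed_eq, mem_ball_zero_iff] at hy
      apply hxS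
      apply Metric.mem_cthickening_of_dist_le x z 1 _ (subset_tsupport g hz)
      rw [← hyz, dist_eq_norm, add_sub_cancel_right]
      have : (bmp d n).rOut ≤ 1 := by
        show 1 / ((n : ℝ) + 1) ≤ 1
        rw [div_le_one (by positivity)]
        have : (0:ℝ) ≤ n := Nat.cast_nonneg n
        linarith
      linarith
    rw [Pi.sub_apply, hx1, hx2, sub_zero]
  have hb2 : eLpNorm (moll n g - g) 2 volume ≤ ENNReal.ofReal ε' := by
    rw [← eLpNorm_restrict_eq_of_support_subset hsupp]
    refine (eLpNorm_le_of_ae_bound (C := η) (Eventually.of_forall fun x => ?_)).trans ?_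
    · rw [Pi.sub_apply, ← dist_eq_norm]
      apply (bmp d n).dist_normed_convolution_le hg2.1
      intro y hy
      apply (hδ' _).le
      rw [Metric.mem_ball] at hy
      exact hy.trans hn
    · rw [Measure.restrict_apply_univ]
      simpa using hηle
  rw [hdec]
  calc eLpNorm (moll n (h - g) + (moll n g - g) + (g - h)) 2 volume
      ≤ eLpNorm (moll n (h - g) + (moll n g - g)) 2 volume + eLpNorm (g - h) 2 volume :=
        eLpNorm_add_le (hm1.add hm2) hm3 (by norm_num)
    _ ≤ (eLpNorm (moll n (h - g)) 2 volume + eLpNorm (moll n g - g) 2 volume) +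
          eLpNorm (g - h) 2 volume := by
        gcongr
        exact eLpNorm_add_le hm1 hm2 (by norm_num)
    _ ≤ ENNReal.ofReal ε' + ENNReal.ofReal ε' + ENNReal.ofReal ε' := by gcongr
    _ = ENNReal.ofReal ε' * 3 := by ring
    _ ≤ ε := hlt

theorem moll_fderiv (n : ℕ) {u g : Sp d → F} (hu : LocallyIntegrable u volume) (v : Sp d)
    (hw : IsWeakDeriv u g v) (x : Sp d) : fderiv ℝ (moll n u) x v = moll n g x := by
  set ρ : Sp d → ℝ := (bmp d n).normed volume with hρ
  have hρd : ContDiff ℝ (⊤ : ℕ∞) ρ := (bmp d n).contDiff_normed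
  have hρs : HasCompactSupport ρ := (bmp d n).hasCompactSupport_normed
  have hρd1 : ContDiff ℝ 1 ρ := hρd.of_le (by exact_mod_cast le_top)
  have h := hρs.hasFDerivAt_convolution_left (ContinuousLinearMap.lsmul ℝ ℝ) hρd1 hu x
  have hex : ConvolutionExists (fderiv ℝ ρ) u ((ContinuousLinearMap.lsmul ℝ ℝ (E := F)).precompL (Sp d)) volume :=
    (hρs.fderiv ℝ).convolutionExists_left _ (hρd1.continuous_fderiv one_ne_zero) hu
  have e1 : fderiv ℝ (moll n u) x = (fderiv ℝ ρ ⋆[(ContinuousLinearMap.lsmul ℝ ℝ).precompL (Sp d), volume] u) x :=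
    h.fderiv
  rw [e1, convolution_def, ContinuousLinearMap.integral_apply (hex x)]
  have e2 : ∀ t, ((ContinuousLinearMap.lsmul ℝ ℝ).precompL (Sp d) (fderiv ℝ ρ t) (u (x - t))) v =
      (fderiv ℝ ρ t v) • u (x - t) := by
    intro t
    rw [ContinuousLinearMap.precompL_apply]
    rfl
  simp_rw [e2]
  -- substitute
  have e3 : ∫ t, (fderiv ℝ ρ t v) • u (x - t) = ∫ t, (fderiv ℝ ρ (x - t) v) • u t := by
    rw [← integral_sub_left_eq_self (fun t => (fderiv ℝ ρ t v) • u (x - t)) volume x]
    simp only [sub_sub_cancel]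
  rw [e3]
  set χ : Sp d → ℝ := fun t => ρ (x - t) with hχ
  have hχd : ContDiff ℝ (⊤ : ℕ∞) χ := hρd.comp (contDiff_const.sub contDiff_id)
  have hχs : HasCompactSupport χ := by
    have := hρs.comp_homeomorph (Homeomorph.subLeft x)
    exact this
  have hχf : ∀ t, fderiv ℝ χ t v = - fderiv ℝ ρ (x - t) v := by
    intro t
    have h1 : HasFDerivAt ρ (fderiv ℝ ρ (x - t)) (x - t) :=
      (hρd1.differentiable one_ne_zero (x - t)).hasFDerivAt
    have h2 : HasFDerivAt (fun t => x - t) (-ContinuousLinearMap.id ℝ (Sp d)) t :=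
      (hasFDerivAt_id t).const_sub x
    have h3 := h1.comp t h2
    have h4 : fderiv ℝ χ t = (fderiv ℝ ρ (x - t)).comp (-ContinuousLinearMap.id ℝ (Sp d)) := h3.fderiv
    rw [h4]
    simp
  have h5 := hw χ hχd hχs
  simp only [hχf] at h5
  have e4 : moll n g x = ∫ t, χ t • g t := by
    rw [moll, convolution_eq_swap]
    rfl
  rw [e4]
  simp only [neg_smul, integral_neg, neg_inj] at h5
  exact h5

/-- A fixed bump function, equal to `1` on the unit ball. -/
def cb (d : ℕ) : ContDiffBump (0 : Sp d) := ⟨1, 2, one_pos, one_lt_two⟩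

/-- Cut-off functions. -/
def cut {d : ℕ} (n : ℕ) (x : Sp d) : ℝ := cb d ((1 / ((n : ℝ) + 1)) • x)

theorem cut_contDiff (n : ℕ) : ContDiff ℝ (⊤ : ℕ∞) (cut n : Sp d → ℝ) :=
  (cb d).contDiff.comp (contDiff_const_smul _)

theorem cut_nonneg (n : ℕ) (x : Sp d) : 0 ≤ cut n x := (cb d).nonneg

theorem cut_le_one (n : ℕ) (x : Sp d) : cut n x ≤ 1 := (cb d).le_one

theorem cut_eq_one {n : ℕ} {x : Sp d} (h : ‖x‖ ≤ n + 1) : cut n x = 1 := by
  apply (cb d).one_of_mem_closedBall
  rw [mem_closedBall_zero_iff, norm_smul]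
  have h1 : (0:ℝ) < (n:ℝ) + 1 := by positivity
  rw [Real.norm_eq_abs, abs_of_pos (by positivity), one_div_mul_eq_div, div_le_iff₀ h1]
  show ‖x‖ ≤ 1 * (n + 1)
  linarith

theorem cut_support (n : ℕ) : HasCompactSupport (cut n : Sp d → ℝ) := by
  apply HasCompactSupport.of_support_subset_isCompact (isCompact_closedBall (0 : Sp d) (2 * (n + 1)))
  intro x hx
  rw [mem_closedBall_zero_iff]
  by_contra hcon
  push Not at hcon
  apply hx
  apply (cb d).zero_of_le_dist
  rw [dist_zero_right, norm_smul]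
  have h1 : (0:ℝ) < (n:ℝ) + 1 := by positivity
  rw [Real.norm_eq_abs, abs_of_pos (by positivity), one_div_mul_eq_div, le_div_iff₀ h1]
  exact hcon.le

theorem cut_fderiv (n : ℕ) (x : Sp d) :
    fderiv ℝ (cut n : Sp d → ℝ) x = (1 / ((n : ℝ) + 1)) • fderiv ℝ (cb d) ((1 / ((n : ℝ) + 1)) • x) := by
  have h1 : HasFDerivAt (cb d) (fderiv ℝ (cb d) ((1 / ((n : ℝ) + 1)) • x)) ((1 / ((n : ℝ) + 1)) • x) :=
    (((cb d).contDiff (n := 1)).differentiable one_ne_zero _).hasFDerivAt
  have h2 : HasFDerivAt ((1 / ((n : ℝ) + 1)) • (id : Sp d → Sp d))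
      ((1 / ((n : ℝ) + 1)) • ContinuousLinearMap.id ℝ (Sp d)) x :=
    (hasFDerivAt_id x).const_smul _
  have h3 : fderiv ℝ (cut n : Sp d → ℝ) x = (fderiv ℝ (cb d) ((1 / ((n : ℝ) + 1)) • x)).comp
      ((1 / ((n : ℝ) + 1)) • ContinuousLinearMap.id ℝ (Sp d)) :=
    (HasFDerivAt.comp x (g := cb d) h1 h2).fderiv
  rw [h3]
  ext y
  simp

theorem cut_fderiv_le (d : ℕ) : ∃ C : ℝ, 0 ≤ C ∧ ∀ (n : ℕ) (x : Sp d),
    ‖fderiv ℝ (cut n : Sp d → ℝ) x‖ ≤ C / ((n : ℝ) + 1) := by
  have hc : Continuous (fun x => fderiv ℝ (cb d) x) := ((cb d).contDiff (n := 1)).continuous_fderiv one_ne_zero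
  have hs : HasCompactSupport (fun x => fderiv ℝ (cb d) x) := (cb d).hasCompactSupport.fderiv ℝ
  obtain ⟨C, hC⟩ := hs.exists_bound_of_continuous hc
  refine ⟨max C 0, le_max_right _ _, fun n x => ?_⟩
  rw [cut_fderiv, norm_smul, Real.norm_eq_abs, abs_of_pos (by positivity), one_div_mul_eq_div]
  exact div_le_div_of_nonneg_right ((hC _).trans (le_max_left _ _)) (by positivity)

theorem cut_tendsto {h : Sp d → F} (hh : MemLp h 2 volume) :
    Tendsto (fun n : ℕ => eLpNorm (fun x => (cut n x - 1) • h x) 2 volume) atTop (𝓝 0) := by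
  have h1 : Tendsto (fun n : ℕ => ∫⁻ x, ‖(cut n x - 1) • h x‖ₑ ^ (2:ℝ)) atTop (𝓝 (∫⁻ _x : Sp d, 0)) := by
    apply tendsto_lintegral_of_dominated_convergence' (fun x => ‖h x‖ₑ ^ (2:ℝ))
    · intro n
      apply AEMeasurable.pow_const
      exact (((cut_contDiff n).continuous.sub continuous_const).aestronglyMeasurable.smul hh.1).enorm
    · intro n
      apply Eventually.of_forall
      intro x
      apply ENNReal.rpow_le_rpow _ (by norm_num)
      rw [enorm_smul]
      have : ‖cut n x - 1‖ₑ ≤ 1 := by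
        rw [← ofReal_norm, Real.norm_eq_abs, ENNReal.ofReal_le_one, abs_le]
        constructor <;> linarith [cut_nonneg n x, cut_le_one n x]
      calc ‖cut n x - 1‖ₑ * ‖h x‖ₑ ≤ 1 * ‖h x‖ₑ := by gcongr
        _ = _ := one_mul _
    · have := hh.eLpNorm_lt_top
      have h2 := lintegral_rpow_enorm_lt_top_of_eLpNorm_lt_top (p := 2) (by norm_num) (by norm_num) this
      simpa using h2.ne
    · apply Eventually.of_forall
      intro x
      apply tendsto_const_nhds.congr'
      filter_upwards [eventually_ge_atTop ⌈‖x‖⌉₊] with n hn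
      have : ‖x‖ ≤ n + 1 := by
        have h3 := Nat.le_ceil ‖x‖
        have h4 : ((⌈‖x‖⌉₊ : ℕ) : ℝ) ≤ n := by exact_mod_cast hn
        linarith
      rw [cut_eq_one this, sub_self, zero_smul, enorm_zero, ENNReal.zero_rpow_of_pos (by norm_num)]
  rw [lintegral_zero] at h1
  have h2 : Tendsto (fun n : ℕ => (∫⁻ x, ‖(cut n x - 1) • h x‖ₑ ^ (2:ℝ)) ^ (1/2 : ℝ)) atTop
      (𝓝 ((0 : ℝ≥0∞) ^ (1/2 : ℝ))) :=
    (ENNReal.continuous_rpow_const.tendsto _).comp h1
  rw [ENNReal.zero_rpow_of_pos (by norm_num)] at h2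
  refine h2.congr fun n => ?_
  rw [eLpNorm_eq_lintegral_rpow_enorm_toReal (by norm_num) (by norm_num)]
  simp only [ENNReal.toReal_ofNat]

/-- A1. Smooth compactly supported functions are dense in `H¹`. -/
theorem IsH1.approx {d : ℕ} {F : Type*} [NormedAddCommGroup F] [NormedSpace ℝ F] [CompleteSpace F]
    {u : Sp d → F} {G : Fin d → Sp d → F} (h : IsH1 u G) :
    ∃ v : ℕ → Sp d → F, (∀ n, ContDiff ℝ (⊤ : ℕ∞) (v n)) ∧ (∀ n, HasCompactSupport (v n)) ∧
      Tendsto (fun n => eLpNorm (fun x => v n x - u x) 2 volume) atTop (𝓝 0) ∧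
      ∀ a, Tendsto (fun n => eLpNorm (fun x => fderiv ℝ (v n) x (eb a) - G a x) 2 volume)
        atTop (𝓝 0) := by
  have hul : LocallyIntegrable u volume := h.memLp.locallyIntegrable (by norm_num)
  -- multiplication by the cut-off is a contraction
  have hcut : ∀ (n : ℕ) (w : Sp d → F), eLpNorm (fun x => cut n x • w x) 2 volume ≤ eLpNorm w 2 volume := by
    intro n w
    apply eLpNorm_mono
    intro x
    rw [norm_smul, Real.norm_eq_abs, abs_of_nonneg (cut_nonneg n x)]
    exact mul_le_of_le_one_left (norm_nonneg _) (cut_le_one n x)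
  refine ⟨fun n x => cut n x • moll n u x, fun n => (cut_contDiff n).smul (moll_contDiff n hul),
    fun n => (cut_support n).smul_right, ?_, ?_⟩
  · have h1 := (moll_tendsto h.memLp).add (cut_tendsto h.memLp)
    rw [add_zero] at h1
    refine tendsto_of_tendsto_of_tendsto_of_le_of_le tendsto_const_nhds h1 (fun n => zero_le) ?_
    intro n
    have e : (fun x => cut n x • moll n u x - u x) =
        (fun x => cut n x • (moll n u - u) x) + (fun x => (cut n x - 1) • u x) := by
      funext x
      simp only [Pi.add_apply, Pi.sub_apply, smul_sub, sub_smul, one_smul]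
      abel
    show eLpNorm (fun x => cut n x • moll n u x - u x) 2 volume ≤ _
    rw [e]
    refine (eLpNorm_add_le ?_ ?_ (by norm_num)).trans ?_
    · exact (cut_contDiff n).continuous.aestronglyMeasurable.smul
        ((moll_contDiff n hul).continuous.aestronglyMeasurable.sub h.memLp.1)
    · exact ((cut_contDiff n).continuous.sub continuous_const).aestronglyMeasurable.smul h.memLp.1
    · exact add_le_add (hcut n _) le_rfl
  · intro a
    have hgl : LocallyIntegrable (G a) volume := (h.memLp_grad a).locallyIntegrable (by norm_num)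
    obtain ⟨C, hC0, hC⟩ := cut_fderiv_le d
    have h0 : Tendsto (fun n : ℕ => ENNReal.ofReal (C * ‖(eb a : Sp d)‖ / ((n : ℝ) + 1)) * eLpNorm u 2 volume)
        atTop (𝓝 0) := by
      have h1 : Tendsto (fun n : ℕ => ENNReal.ofReal (C * ‖(eb a : Sp d)‖ / ((n : ℝ) + 1))) atTop (𝓝 0) := by
        rw [← ENNReal.ofReal_zero]
        apply ENNReal.tendsto_ofReal
        have := (tendsto_one_div_add_atTop_nhds_zero_nat (𝕜 := ℝ)).const_mul (C * ‖(eb a : Sp d)‖)
        rw [mul_zero] at this
        refine this.congr fun n => ?_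
        ring
      have h2 := ENNReal.Tendsto.mul_const h1 (Or.inr h.memLp.eLpNorm_lt_top.ne)
      rw [zero_mul] at h2
      exact h2
    have h1 := ((moll_tendsto (h.memLp_grad a)).add (cut_tendsto (h.memLp_grad a))).add h0
    rw [add_zero, add_zero] at h1
    refine tendsto_of_tendsto_of_tendsto_of_le_of_le tendsto_const_nhds h1 (fun n => zero_le) ?_
    intro n
    have hfd : ∀ x, fderiv ℝ (fun x => cut n x • moll n u x) x (eb a) =
        cut n x • moll n (G a) x + (fderiv ℝ (cut n : Sp d → ℝ) x (eb a)) • moll n u x := by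
      intro x
      have d1 : DifferentiableAt ℝ (cut n : Sp d → ℝ) x := ((cut_contDiff n).differentiable (by simp)) x
      have d2 : DifferentiableAt ℝ (moll n u) x := ((moll_contDiff n hul).differentiable (by simp)) x
      rw [fderiv_fun_smul d1 d2]
      simp only [_root_.add_apply, _root_.smul_apply,
        ContinuousLinearMap.smulRight_apply]
      rw [moll_fderiv n hul (eb a) (h.weak a)]
    have e : (fun x => fderiv ℝ (fun x => cut n x • moll n u x) x (eb a) - G a x) =
        ((fun x => cut n x • (moll n (G a) - G a) x) + (fun x => (cut n x - 1) • G a x)) +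
          (fun x => (fderiv ℝ (cut n : Sp d → ℝ) x (eb a)) • moll n u x) := by
      funext x
      rw [hfd]
      simp only [Pi.add_apply, Pi.sub_apply, smul_sub, sub_smul, one_smul]
      abel
    have m1 : AEStronglyMeasurable (fun x => cut n x • (moll n (G a) - G a) x) volume :=
      (cut_contDiff n).continuous.aestronglyMeasurable.smul
        ((moll_contDiff n hgl).continuous.aestronglyMeasurable.sub (h.memLp_grad a).1)
    have m2 : AEStronglyMeasurable (fun x => (cut n x - 1) • G a x) volume :=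
      ((cut_contDiff n).continuous.sub continuous_const).aestronglyMeasurable.smul (h.memLp_grad a).1
    have m3 : AEStronglyMeasurable (fun x => (fderiv ℝ (cut n : Sp d → ℝ) x (eb a)) • moll n u x) volume := by
      apply Continuous.aestronglyMeasurable
      apply Continuous.smul _ (moll_contDiff n hul).continuous
      have := (cut_contDiff (d := d) n).continuous_fderiv (by simp)
      exact this.clm_apply continuous_const
    show eLpNorm (fun x => fderiv ℝ (fun x => cut n x • moll n u x) x (eb a) - G a x) 2 volume ≤ _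
    rw [e]
    refine (eLpNorm_add_le (m1.add m2) m3 (by norm_num)).trans ?_
    have b1 : eLpNorm ((fun x => cut n x • (moll n (G a) - G a) x) + (fun x => (cut n x - 1) • G a x)) 2 volume ≤
        eLpNorm (moll n (G a) - G a) 2 volume + eLpNorm (fun x => (cut n x - 1) • G a x) 2 volume := by
      refine (eLpNorm_add_le m1 m2 (by norm_num)).trans ?_
      exact add_le_add (hcut n _) le_rfl
    have b2 : eLpNorm (fun x => (fderiv ℝ (cut n : Sp d → ℝ) x (eb a)) • moll n u x) 2 volume ≤
        ENNReal.ofReal (C * ‖(eb a : Sp d)‖ / ((n : ℝ) + 1)) * eLpNorm u 2 volume := by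
      have : ∀ x, ‖(fderiv ℝ (cut n : Sp d → ℝ) x (eb a)) • moll n u x‖ ≤
          (C * ‖(eb a : Sp d)‖ / ((n : ℝ) + 1)) * ‖moll n u x‖ := by
        intro x
        rw [norm_smul]
        apply mul_le_mul_of_nonneg_right _ (norm_nonneg _)
        refine (ContinuousLinearMap.le_opNorm _ _).trans ?_
        refine (mul_le_mul_of_nonneg_right (hC n x) (norm_nonneg _)).trans (le_of_eq ?_)
        ring
      refine (eLpNorm_le_mul_eLpNorm_of_ae_le_mul (Eventually.of_forall this) 2).trans ?_
      gcongr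
      exact moll_le n h.memLp.1
    exact add_le_add b1 b2

/-- Cauchy-Schwarz convergence of pairings. -/
theorem tendsto_integral_mul_L2 {f : ℕ → Sp d → ℝ} {K : ℝ} {g : ℕ → Sp d → ℝ} {k : Sp d → ℝ}
    (hk : MemLp k 2 volume) (hfk : ∀ n x, |f n x| ≤ K * |k x|)
    (hf : ∀ n, AEStronglyMeasurable (f n) volume)
    (hg : ∀ n, AEStronglyMeasurable (g n) volume)
    (h : Tendsto (fun n => eLpNorm (g n) 2 volume) atTop (𝓝 0)) :
    Tendsto (fun n => ∫ x, f n x * g n x) atTop (𝓝 0) := by
  rw [tendsto_zero_iff_norm_tendsto_zero]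
  have hb : ∀ n, ENNReal.ofReal ‖∫ x, f n x * g n x‖ ≤
      (ENNReal.ofReal K * eLpNorm k 2 volume) * eLpNorm (g n) 2 volume := by
    intro n
    rw [ofReal_norm]
    refine (enorm_integral_le_lintegral_enorm _).trans ?_
    have h1 := eLpNorm_smul_le_mul_eLpNorm (p := 2) (q := 2) (r := 1) (μ := (volume : Measure (Sp d)))
      (hg n) (hf n)
    rw [eLpNorm_one_eq_lintegral_enorm] at h1
    refine le_trans (le_of_eq ?_) (h1.trans ?_)
    · apply lintegral_congr
      intro x
      rw [Pi.smul_apply', smul_eq_mul]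
    · gcongr
      refine eLpNorm_le_mul_eLpNorm_of_ae_le_mul (Eventually.of_forall fun x => ?_) 2
      rw [Real.norm_eq_abs, Real.norm_eq_abs]
      exact hfk n x
  have hlim : Tendsto (fun n => (ENNReal.ofReal K * eLpNorm k 2 volume) * eLpNorm (g n) 2 volume) atTop (𝓝 0) := by
    have := ENNReal.Tendsto.const_mul (a := ENNReal.ofReal K * eLpNorm k 2 volume) h
      (Or.inr (ENNReal.mul_ne_top ENNReal.ofReal_ne_top hk.eLpNorm_lt_top.ne))
    rwa [mul_zero] at this
  have h2 : Tendsto (fun n => ENNReal.ofReal ‖∫ x, f n x * g n x‖) atTop (𝓝 0) :=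
    tendsto_of_tendsto_of_tendsto_of_le_of_le tendsto_const_nhds hlim (fun n => zero_le) hb
  have h3 := (ENNReal.tendsto_toReal ENNReal.zero_ne_top).comp h2
  rw [ENNReal.toReal_zero] at h3
  refine h3.congr fun n => ?_
  simp only [Function.comp_apply]
  rw [ENNReal.toReal_ofReal (norm_nonneg _)]

/-- A3. Chain rule. -/
theorem IsH1.comp_C1 {d : ℕ} {u : Sp d → ℝ} {G : Fin d → Sp d → ℝ} (h : IsH1 u G)
    (b : ℝ → ℝ) (hb : ContDiff ℝ 1 b) (hb0 : b 0 = 0) (K : ℝ) (hK : ∀ t, |deriv b t| ≤ K) :
    IsH1 (fun x => b (u x)) (fun a x => deriv b (u x) * G a x) := by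
  have hK0 : 0 ≤ K := (abs_nonneg _).trans (hK 0)
  have hbd : Differentiable ℝ b := hb.differentiable one_ne_zero
  have hbc : Continuous (deriv b) := hb.continuous_deriv le_rfl
  have hlip : ∀ s t, |b s - b t| ≤ K * |s - t| := by
    intro s t
    have := Convex.norm_image_sub_le_of_norm_deriv_le (f := b) (C := K) (s := Set.univ)
      (fun x _ => hbd x) (fun x _ => hK x) convex_univ (Set.mem_univ t) (Set.mem_univ s)
    simpa [Real.norm_eq_abs] using this
  have hlip0 : ∀ s, |b s| ≤ K * |s| := by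
    intro s
    have := hlip s 0
    rwa [hb0, sub_zero, sub_zero] at this
  refine ⟨?_, ?_, ?_⟩
  · refine h.memLp.of_le_mul (c := K) (hb.continuous.comp_aestronglyMeasurable h.memLp.1) ?_
    exact Eventually.of_forall fun x => hlip0 (u x)
  · intro a
    refine (h.memLp_grad a).of_le_mul (c := K)
      ((hbc.comp_aestronglyMeasurable h.memLp.1).mul (h.memLp_grad a).1) ?_
    refine Eventually.of_forall fun x => ?_
    rw [norm_mul]
    exact mul_le_mul_of_nonneg_right (hK _) (norm_nonneg _)
  · intro a χ hχ hχs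
    obtain ⟨v, hv1, hv2, hv3, hv4⟩ := IsH1.approx h
    have hvm : ∀ n, AEStronglyMeasurable (v n) volume := fun n => (hv1 n).continuous.aestronglyMeasurable
    obtain ⟨ns, hns, hae⟩ := (tendstoInMeasure_of_tendsto_eLpNorm (p := 2) (by norm_num) hvm h.memLp.1
      hv3).exists_seq_tendsto_ae
    have hns' := hns.tendsto_atTop
    set e : Sp d := eb a with he
    have hχd : ContDiff ℝ 1 χ := hχ.of_le (by exact_mod_cast le_top)
    have hχ' : Continuous (fun x => fderiv ℝ χ x e) :=
      (hχd.continuous_fderiv one_ne_zero).clm_apply continuous_const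
    have hχ's : HasCompactSupport (fun x => fderiv ℝ χ x e) := by
      have := hχs.fderiv (𝕜 := ℝ)
      exact this.comp_left (g := fun L : Sp d →L[ℝ] ℝ => L e) (by simp)
    have hχ'L : MemLp (fun x => fderiv ℝ χ x e) 2 volume := hχ'.memLp_of_hasCompactSupport hχ's
    have hχL : MemLp χ 2 volume := hχ.continuous.memLp_of_hasCompactSupport hχs
    -- identity for the smooth approximations
    have hid : ∀ n, ∫ x, (fderiv ℝ χ x e) * b (v n x) = - ∫ x, χ x * (deriv b (v n x) * fderiv ℝ (v n) x e) := by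
      intro n
      have hvd : Differentiable ℝ (v n) := (hv1 n).differentiable (by simp)
      have hwd : Differentiable ℝ (fun x => b (v n x)) := hbd.comp hvd
      have hwf : ∀ x, fderiv ℝ (fun x => b (v n x)) x e = deriv b (v n x) * fderiv ℝ (v n) x e := by
        intro x
        have h1 := (hbd (v n x)).hasDerivAt.comp_hasFDerivAt x (hvd x).hasFDerivAt
        have h2 : fderiv ℝ (fun x => b (v n x)) x = deriv b (v n x) • fderiv ℝ (v n) x := h1.fderiv
        rw [h2]
        rfl
      have hwc : Continuous (fun x => b (v n x)) := hbd.continuous.comp (hv1 n).continuous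
      have hwc' : Continuous (fun x => fderiv ℝ (fun x => b (v n x)) x e) := by
        simp_rw [hwf]
        apply (hbc.comp (hv1 n).continuous).mul
        exact ((hv1 n).continuous_fderiv (by simp)).clm_apply continuous_const
      have i1 : Integrable (fun x => fderiv ℝ χ x e * b (v n x)) volume :=
        (hχ'.mul hwc).integrable_of_hasCompactSupport hχ's.mul_right
      have i2 : Integrable (fun x => χ x * fderiv ℝ (fun x => b (v n x)) x e) volume :=
        (hχ.continuous.mul hwc').integrable_of_hasCompactSupport hχs.mul_right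
      have i3 : Integrable (fun x => χ x * b (v n x)) volume :=
        (hχ.continuous.mul hwc).integrable_of_hasCompactSupport hχs.mul_right
      have := integral_mul_fderiv_eq_neg_fderiv_mul_of_integrable i1 i2 i3
        (fun x _ => hχd.differentiable one_ne_zero x) (fun x _ => hwd x)
      simp_rw [hwf] at this
      linarith
    -- limit of the left-hand side
    have hL : Tendsto (fun i => ∫ x, (fderiv ℝ χ x e) * b (v (ns i) x)) atTop
        (𝓝 (∫ x, (fderiv ℝ χ x e) * b (u x))) := by
      have hbu : MemLp (fun x => b (u x)) 2 volume := h.memLp.of_le_mul (c := K)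
        (hb.continuous.comp_aestronglyMeasurable h.memLp.1) (Eventually.of_forall fun x => hlip0 (u x))
      have h0 : Tendsto (fun i => ∫ x, (fderiv ℝ χ x e) * (b (v (ns i) x) - b (u x))) atTop (𝓝 0) := by
        refine tendsto_integral_mul_L2 (f := fun _ x => fderiv ℝ χ x e) (K := 1) hχ'L (fun n x => by rw [one_mul])
          (fun n => hχ'.aestronglyMeasurable) (fun n =>
            (hb.continuous.comp_aestronglyMeasurable (hvm _)).sub hbu.1) ?_
        have h1 : Tendsto (fun i => ENNReal.ofReal K * eLpNorm (fun x => v (ns i) x - u x) 2 volume) atTop (𝓝 0) := by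
          have := ENNReal.Tendsto.const_mul (a := ENNReal.ofReal K) (hv3.comp hns') (Or.inr ENNReal.ofReal_ne_top)
          rwa [mul_zero] at this
        refine tendsto_of_tendsto_of_tendsto_of_le_of_le tendsto_const_nhds h1 (fun n => zero_le) ?_
        intro i
        exact eLpNorm_le_mul_eLpNorm_of_ae_le_mul (Eventually.of_forall fun x => hlip _ _) 2
      have h1 : ∀ i, ∫ x, (fderiv ℝ χ x e) * b (v (ns i) x) =
          (∫ x, (fderiv ℝ χ x e) * (b (v (ns i) x) - b (u x))) + ∫ x, (fderiv ℝ χ x e) * b (u x) := by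
        intro i
        rw [← integral_add]
        · apply integral_congr_ae
          exact Eventually.of_forall fun x => by simp only []; ring
        · have hc : MemLp (fun x => b (v (ns i) x)) 2 volume := by
            apply Continuous.memLp_of_hasCompactSupport
            · exact hbd.continuous.comp (hv1 _).continuous
            · exact (hv2 _).comp_left hb0
          exact hχ'L.integrable_mul (hc.sub hbu)
        · exact hχ'L.integrable_mul hbu
      have h2 := h0.add_const (∫ x, (fderiv ℝ χ x e) * b (u x))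
      rw [zero_add] at h2
      exact h2.congr fun i => (h1 i).symm
    -- limit of the right-hand side
    have hR : Tendsto (fun i => ∫ x, χ x * (deriv b (v (ns i) x) * fderiv ℝ (v (ns i)) x e)) atTop
        (𝓝 (∫ x, χ x * (deriv b (u x) * G a x))) := by
      have hm : ∀ i, AEStronglyMeasurable (fun x => χ x * deriv b (v i x)) volume := fun i =>
        (hχ.continuous.mul (hbc.comp (hv1 i).continuous)).aestronglyMeasurable
      have h0 : Tendsto (fun i => ∫ x, (χ x * deriv b (v (ns i) x)) * (fderiv ℝ (v (ns i)) x e - G a x))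
          atTop (𝓝 0) := by
        refine tendsto_integral_mul_L2 (K := K) hχL (fun n x => ?_) (fun n => hm _) (fun n => ?_)
          ((hv4 a).comp hns')
        · rw [abs_mul, mul_comm]
          exact mul_le_mul_of_nonneg_right (hK _) (abs_nonneg _)
        · have : Continuous (fun x => fderiv ℝ (v (ns n)) x e) :=
            ((hv1 _).continuous_fderiv (by simp)).clm_apply continuous_const
          exact this.aestronglyMeasurable.sub (h.memLp_grad a).1
      have h1 : Tendsto (fun i => ∫ x, (χ x * deriv b (v (ns i) x)) * G a x) atTop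
          (𝓝 (∫ x, (χ x * deriv b (u x)) * G a x)) := by
        apply tendsto_integral_of_dominated_convergence (fun x => K * |χ x * G a x|)
        · intro i
          exact (hm _).mul (h.memLp_grad a).1
        · exact ((hχL.integrable_mul (h.memLp_grad a)).abs).const_mul K
        · intro i
          refine Eventually.of_forall fun x => ?_
          rw [norm_mul, norm_mul, Real.norm_eq_abs, Real.norm_eq_abs, Real.norm_eq_abs, abs_mul]
          have := hK (v (ns i) x)
          calc |χ x| * |deriv b (v (ns i) x)| * |G a x| ≤ |χ x| * K * |G a x| := by gcongr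
            _ = K * (|χ x| * |G a x|) := by ring
        · filter_upwards [hae] with x hx
          exact (((hbc.tendsto _).comp hx).const_mul (χ x)).mul_const (G a x)
      have h2 := h0.add h1
      rw [zero_add] at h2
      have e3 : ∫ x, χ x * (deriv b (u x) * G a x) = ∫ x, (χ x * deriv b (u x)) * G a x := by
        apply integral_congr_ae
        exact Eventually.of_forall fun x => by simp only []; ring
      rw [e3]
      refine h2.congr fun i => ?_
      rw [← integral_add]
      · apply integral_congr_ae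
        exact Eventually.of_forall fun x => by simp only []; ring
      · have hc1 : MemLp (fun x => χ x * deriv b (v (ns i) x)) 2 volume := by
          apply Continuous.memLp_of_hasCompactSupport
          · exact hχ.continuous.mul (hbc.comp (hv1 _).continuous)
          · exact hχs.mul_right
        have hc2 : MemLp (fun x => fderiv ℝ (v (ns i)) x e) 2 volume := by
          apply Continuous.memLp_of_hasCompactSupport
          · exact ((hv1 _).continuous_fderiv (by simp)).clm_apply continuous_const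
          · exact ((hv2 (ns i)).fderiv (𝕜 := ℝ)).comp_left (g := fun L : Sp d →L[ℝ] ℝ => L e) (by simp)
        exact hc1.integrable_mul (hc2.sub (h.memLp_grad a))
      · have hc1 : MemLp (fun x => χ x * deriv b (v (ns i) x)) 2 volume := by
          apply Continuous.memLp_of_hasCompactSupport
          · exact hχ.continuous.mul (hbc.comp (hv1 _).continuous)
          · exact hχs.mul_right
        exact hc1.integrable_mul (h.memLp_grad a)
    have hfin := tendsto_nhds_unique hL ((hR.neg).congr fun i => (hid (ns i)).symm)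
    simp only [smul_eq_mul]
    exact hfin

end Pool.Agent.Helper21.LL
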