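import Pool.Agent.Helper21.Reg.Final

/-!
# Density of the regulator on `K₂` of every smooth curve of genus one

`E = ℂ / L.lattice` is an arbitrary complex elliptic curve, `S ⊆ E` an arbitrary finite set of points
(given by representatives in `ℂ`), possibly empty, and `U = E ∖ S`.

* `H²_M(U, ℚ(2)) = K₂(U)^{(2)} ⊗ ℚ` is the tame kernel: the classes of the formal combinations
  `ξ = ∑ nᵢ {fᵢ, gᵢ}` of symbols of nonzero rational functions on `E` whose tame symbols at all points
  of `U` are trivial (`IsK2 L S ξ`), tensored with `ℚ`.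
* `Hg^{2,2}(U) = 0`, so `H²_H(U, ℚ(2)) = J^{2,2}(U) = H¹(U, ℂ) / H¹(U, ℚ(2))`.  The image of the
  regulator is a `ℚ`-subspace whose preimage in `H¹(U, ℂ)` contains `H¹(U, ℚ(2))`, hence its closure
  contains `H¹(U, ℝ(2))`, and the image is dense if and only if the image of the real regulator
  `K₂(U) ⊗ ℚ → H¹(U, ℝ(1))`, `{f, g} ↦ i (log|f| d arg g - log|g| d arg f)`, is dense.
* `H¹(U, ℝ(1)) ≅ {(w, r) ∈ ℂ × ℝ^S : ∑ r_P = 0}` by pairing the `H¹(E)`-component with `dz` and taking
  residues; up to nonzero constant factors the real regulator becomes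
  `ξ ↦ (∑ nᵢ ∫_E log|fᵢ| conj(gᵢ'/gᵢ) dA, (log|T_P ξ|)_{P ∈ S})`, which is `Chain.realReg L S ξ`.

The theorem says that the closure of the image of `K₂(U) ⊗ ℚ` contains the whole hyperplane.
-/

noncomputable section

namespace Pool.Agent.Results.MP_b2b689_ag.GenusOne

open Pool.Agent.Helper21.Reg

/-- For every elliptic curve `E = ℂ / L.lattice` and every finite set `S` of pairwise inequivalent
points, the real regulator image of `K₂(E ∖ S) ⊗ ℚ` is dense. -/
theorem result (L : PeriodPair) (S : Finset ℂ)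
    (hS : ∀ P ∈ S, ∀ Q ∈ S, P - Q ∈ L.lattice → P = Q) :
    {p : ℂ × (S → ℝ) | ∑ P, p.2 P = 0} ⊆
      closure {p : ℂ × (S → ℝ) | ∃ (m : ℕ) (ξ : Chain), 0 < m ∧ IsK2 L S ξ ∧
        p = (m : ℝ)⁻¹ • ξ.realReg L S} := by
  intro p hp
  have h := density L S hS p hp
  rw [← SetLike.mem_coe, Submodule.topologicalClosure_coe] at h
  exact h

end Pool.Agent.Results.MP_b2b689_ag.GenusOne
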